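import Pool.Agent.J4H50.YZ.Stm2

set_option autoImplicit false
set_option linter.unusedSectionVars false
set_option linter.unusedVariables false
set_option linter.unusedSimpArgs false

/-! # Project YZ: the poles of the contribution of a point of the plane, with weights -/

namespace Pool.Agent.J4H19.YZ

attribute [-instance] HahnSeries.powerSeriesAlgebra

open Pool.Agent.W574.SM Pool.Agent.N103 Pool.Agent.N103.V Pool.Agent.J4H46.MS
open Pool.Agent.J4H50.YO Pool.Agent.J4H50.YZ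
open Pool.Agent.J4H46.MQ (ord_eq rm_Xpow)
open Polynomial

section Node

variable {R : Type} [CommRing R]

/-- the conclusion at a node -/
def Good6 (D : Subring R) (s0 : ℂ) (Φ : ℕ → ℕ → R) (e : ℕ → R) (h' : MP) (a0 n0 a1 n1 : ℕ)
    (Z : R) : Prop :=
  ∃ c0 ∈ D, ∃ c1 ∈ D,
    ((n0 : ℂ) + a0 * s0 = 0 → ∀ μ, OrdP (res0 h') μ → c0 = Φ (a1 + μ) n1 * e (Nat.gcd a0 (a1 + μ))) ∧
    ((n1 : ℂ) + a1 * s0 = 0 → ∀ μ, OrdP (res1 h') μ → c1 = Φ (a0 + μ) n0 * e (Nat.gcd a1 (a0 + μ))) ∧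
    Z - c0 * Φ a0 n0 - c1 * Φ a1 n1 ∈ D

variable {h h' : MP} {a0 n0 a1 n1 : ℕ}
variable {s0 : ℂ} {D : Subring R} {Φ : ℕ → ℕ → R} {l : R} {e : ℕ → R} {cW : ℕ → ℂ[X] → R}

theorem unit6 (hD : ZData D s0 Φ l) (he : ∀ g, e g ∈ D) (inv : Inv3 h s0 h' a0 n0 a1 n1)
    (hh : MvPolynomial.constantCoeff h' ≠ 0) :
    Good6 D s0 Φ e h' a0 n0 a1 n1 (e (Nat.gcd a0 a1) * (Φ a0 n0 * Φ a1 n1)) := by
  have o0 : OrdP (res0 h') 0 := OrdP_of_cc hh
  have o1 : OrdP (res1 h') 0 := OrdP_res1_cc hh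
  by_cases hA0 : (n0 : ℂ) + a0 * s0 = 0
  · have hA1 := inv.hH0 hA0 0 o0
    rw [add_zero, mul_comm] at hA1
    refine ⟨Φ a1 n1 * e (Nat.gcd a0 a1), D.mul_mem (hD.reg a1 n1 inv.hn1 hA1) (he _), 0,
      D.zero_mem, fun _ μ hμ => ?_, fun h => absurd h hA1, ?_⟩
    · rw [← o0.unique hμ, add_zero]
    · have : e (Nat.gcd a0 a1) * (Φ a0 n0 * Φ a1 n1) - Φ a1 n1 * e (Nat.gcd a0 a1) * Φ a0 n0
          - 0 * Φ a1 n1 = 0 := by ring
      rw [this]
      exact D.zero_mem
  · by_cases hA1 : (n1 : ℂ) + a1 * s0 = 0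
    · refine ⟨0, D.zero_mem, Φ a0 n0 * e (Nat.gcd a1 a0),
        D.mul_mem (hD.reg a0 n0 inv.hn0 hA0) (he _), fun h => absurd h hA0,
        fun _ μ hμ => ?_, ?_⟩
      · rw [← o1.unique hμ, add_zero]
      · have : e (Nat.gcd a0 a1) * (Φ a0 n0 * Φ a1 n1) - 0 * Φ a0 n0
            - Φ a0 n0 * e (Nat.gcd a1 a0) * Φ a1 n1 = 0 := by
          rw [Nat.gcd_comm a1 a0]
          ring
        rw [this]
        exact D.zero_mem
    · refine ⟨0, D.zero_mem, 0, D.zero_mem, fun h => absurd h hA0, fun h => absurd h hA1, ?_⟩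
      rw [zero_mul, zero_mul, sub_zero, sub_zero]
      exact D.mul_mem (he _) (D.mul_mem (hD.reg a0 n0 inv.hn0 hA0) (hD.reg a1 n1 inv.hn1 hA1))

theorem w11 (he : ∀ g, e g ∈ D) (h11 : Φ 1 1 ∈ D ∨ e 1 = 0) : Φ 1 1 * e 1 ∈ D := by
  rcases h11 with h | h
  · exact D.mul_mem h (he 1)
  · rw [h, mul_zero]
    exact D.zero_mem

theorem curveV6 (hD : ZData D s0 Φ l) (he : ∀ g, e g ∈ D) (h11 : Φ 1 1 ∈ D ∨ e 1 = 0)
    (inv : Inv3 h s0 h' a0 n0 0 1)
    (h0 : MvPolynomial.constantCoeff h' = 0)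
    (h1 : MvPolynomial.constantCoeff (MvPolynomial.pderiv 1 h') ≠ 0) :
    Good6 D s0 Φ e h' a0 n0 0 1 (e (Nat.gcd a0 1) * (Φ a0 n0 * Φ 1 1)) := by
  have o0 : OrdP (res0 h') 1 := OrdP_curve h0 h1
  have hA1 : ((1 : ℕ) : ℂ) + ((0 : ℕ) : ℂ) * s0 ≠ 0 := by simp
  rw [Nat.gcd_one_right]
  by_cases hA0 : (n0 : ℂ) + a0 * s0 = 0
  · refine ⟨Φ 1 1 * e 1, w11 he h11, 0, D.zero_mem, fun _ μ hμ => ?_, fun h => absurd h hA1, ?_⟩
    · rw [← o0.unique hμ, zero_add, Nat.gcd_one_right]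
    · have : e 1 * (Φ a0 n0 * Φ 1 1) - Φ 1 1 * e 1 * Φ a0 n0 - 0 * Φ 0 1 = 0 := by ring
      rw [this]
      exact D.zero_mem
  · refine ⟨0, D.zero_mem, 0, D.zero_mem, fun h => absurd h hA0, fun h => absurd h hA1, ?_⟩
    rw [zero_mul, zero_mul, sub_zero, sub_zero]
    have h2 := D.mul_mem (hD.reg a0 n0 inv.hn0 hA0) (w11 he h11)
    convert h2 using 1
    ring

theorem curveU6 (hD : ZData D s0 Φ l) (he : ∀ g, e g ∈ D) (h11 : Φ 1 1 ∈ D ∨ e 1 = 0)
    (inv : Inv3 h s0 h' 0 1 a1 n1)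
    (h0 : MvPolynomial.constantCoeff h' = 0)
    (h1 : MvPolynomial.constantCoeff (MvPolynomial.pderiv 0 h') ≠ 0) :
    Good6 D s0 Φ e h' 0 1 a1 n1 (e (Nat.gcd a1 1) * (Φ a1 n1 * Φ 1 1)) := by
  have o1 : OrdP (res1 h') 1 := by
    rw [← res0_sw]
    refine OrdP_curve (by rwa [cc_sw]) ?_
    rw [(pderiv_sw h').2, cc_sw]
    exact h1
  have hA0 : ((1 : ℕ) : ℂ) + ((0 : ℕ) : ℂ) * s0 ≠ 0 := by simp
  rw [Nat.gcd_one_right]
  by_cases hA1 : (n1 : ℂ) + a1 * s0 = 0
  · refine ⟨0, D.zero_mem, Φ 1 1 * e 1, w11 he h11, fun h => absurd h hA0, fun _ μ hμ => ?_, ?_⟩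
    · rw [← o1.unique hμ, zero_add, Nat.gcd_one_right]
    · have : e 1 * (Φ a1 n1 * Φ 1 1) - 0 * Φ 0 1 - Φ 1 1 * e 1 * Φ a1 n1 = 0 := by ring
      rw [this]
      exact D.zero_mem
  · refine ⟨0, D.zero_mem, 0, D.zero_mem, fun h => absurd h hA0, fun h => absurd h hA1, ?_⟩
    rw [zero_mul, zero_mul, sub_zero, sub_zero]
    have h2 := D.mul_mem (hD.reg a1 n1 inv.hn1 hA1) (w11 he h11)
    convert h2 using 1
    ring

/-- **The poles of the contribution of a point, with weights.** -/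
theorem all6 (hF : FF h (fun _ : Option Empty => (1 : MP)) 1 ≠ 0)
    (hE : Evp (FF h (fun _ : Option Empty => (1 : MP)) 1) s0)
    (hD : ZData D s0 Φ l) (h11 : Φ 1 1 ∈ D ∨ e 1 = 0) (he : ∀ g, e g ∈ D)
    (hcm : ∀ n P, cW n P ∈ D)
    (hc2 : ∀ (n : ℕ) (P : ℂ[X]), 1 ≤ n → P ≠ 0 → (spec n P).card ≤ 2 →
      cW n P = (l + 1) * e (gmul n P))
    {h' : MP} {a0 n0 a1 n1 : ℕ} {Z : R}
    (hZ : RedW (fun x n y m => e (Nat.gcd x y) * (Φ x n * Φ y m))
      (fun N ν P S => (cW N P - ∑ z ∈ S, e (Nat.gcd N (P.rootMultiplicity z))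
        - e (Nat.gcd N P.natDegree)) * Φ N ν) h' a0 n0 a1 n1 Z) :
    Inv3 h s0 h' a0 n0 a1 n1 → Good6 D s0 Φ e h' a0 n0 a1 n1 Z := by
  classical
  induction hZ with
  | unit h' a0 n0 a1 n1 hh hI => exact fun inv => unit6 hD he inv hh
  | curveV h' a0 n0 h0 h1 => exact fun inv => curveV6 hD he h11 inv h0 h1
  | curveU h' a1 n1 h0 h1 => exact fun inv => curveU6 hD he h11 inv h0 h1
  | blowup h' a0 n0 a1 n1 m hm hc hI hhc hhI S h0S hS Zc ZI hz0 hcS hZI ih0 ihc ihI =>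
    intro inv
    obtain ⟨G⟩ := inv.geom
    have hn0 := inv.hn0
    have hn1 := inv.hn1
    have hmult : IsMult (fun _ : Unit => h') m := ⟨⟨fun _ => hc 0, fun _ => hhc 0⟩,
      ⟨fun _ => hI, fun _ => hhI⟩⟩
    have hJ1 := inv.hJ1 m hmult
    obtain ⟨z1, hz1S⟩ := Infinite.exists_notMem_finset S
    have hz1ne : z1 ≠ 0 := fun h => hz1S (h ▸ h0S)
    have hu1 := hS z1 hz1S
    have hhz : ∀ z, res0 (hc z) = (res0 (hc 0)).comp (X + C z) := fun z =>
      res0_chart h' (hc 0) (hc z) m z (hhc 0) (hhc z)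
    have hcc : ∀ z, (res0 (hc 0)).eval z = MvPolynomial.constantCoeff (hc z) := by
      intro z
      rw [← coeff_res0, hhz z, coeff_zero_eq_eval_zero, eval_comp]
      simp
    have hPh : res0 (hc 0) ≠ 0 := by
      intro h0
      apply hu1
      rw [← hcc, h0, eval_zero]
    have hdeg := coeff_resI h' (hc 0) hI m (hhc 0) hhI
    have hcomp : ∀ z, res0 (hc z) ≠ 0 ∧ (res0 (hc z)).natDegree ≤ m := by
      intro z
      have h1 : (X + C z : ℂ[X]).natDegree = 1 := natDegree_X_add_C z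
      constructor
      · intro h
        have h2 := ord_comp (res0 (hc 0)) hPh z
        rw [hhz] at h
        rw [h, coeff_zero] at h2
        exact h2.2 rfl
      · rw [hhz, natDegree_comp, h1, mul_one]
        exact hdeg.1
    have hPHI : res1 hI ≠ 0 := by
      intro h
      have h2 := hdeg.2.2 (m - (res0 (hc 0)).natDegree) (by omega)
      rw [h, coeff_zero] at h2
      have h3 : m - (m - (res0 (hc 0)).natDegree) = (res0 (hc 0)).natDegree := by
        have := hdeg.1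
        omega
      rw [h3] at h2
      exact hPh (leadingCoeff_eq_zero.1 h2.symm)
    have hmc : ∀ z m', IsMult (fun _ : Unit => hc z) m' → m' ≤ m := by
      intro z m' hm1
      obtain ⟨g1, hg1⟩ := hm1.2
      exact le_of_dvd (hcomp z).1 (hcomp z).2 (res0_of_chartI (hg1 ()))
    have hmI : ∀ m', IsMult (fun _ : Unit => hI) m' → m' ≤ m := by
      intro m' hm1
      obtain ⟨g1, hg1⟩ := hm1.1
      exact le_of_dvd hPHI hdeg.2.1 (res1_of_chart0 (hg1 ()))
    have hresI : res0 h' = X ^ m * res0 hI := res0_of_chartI hhI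
    have hres0 : res1 h' = X ^ m * res1 (hc 0) := res1_of_chart0 (hhc 0)
    have han := fun hA => blow3 hF G hn0 hn1 m hm hc hI hhc hhI S h0S hS hJ1 inv.hJ2 inv.hJ2'
      inv.hz0 inv.hz1 s0 hE hA
    have haz : a0 + a1 + m = 0 → n0 + n1 = 1 := by omega
    have hg1 : ∀ (z : ℂ) (j : Option Empty), MvPolynomial.aeval (chart z) ((1 : MP))
        = MvPolynomial.X 0 ^ 0 * (1 : MP) := fun z j => by rw [map_one, pow_zero, mul_one]
    have hgI : ∀ (j : Option Empty), MvPolynomial.aeval chartI ((1 : MP))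
        = MvPolynomial.X 1 ^ 0 * (1 : MP) := fun j => by rw [map_one, pow_zero, mul_one]
    have inv0 : Inv3 h s0 (hc 0) (a0 + a1 + m) (n0 + n1) a1 n1 :=
      { geom := ⟨G.child0 hn0 hn1 m 0 (hc 0) (fun _ => 1) (hhc 0) (hg1 0)⟩
        hn0 := by omega
        hn1 := hn1
        hz0 := haz
        hz1 := inv.hz1
        hJ1 := fun m' h1 => ⟨arith3 a0 n0 a1 n1 m _ hn0 hn1 (hmc 0 m' h1) hJ1.1
          hJ1.2, (Nat.mul_le_mul_left _ (hmc 0 m' h1)).trans hJ1.2⟩
        hJ2 := fun _ => arith1 a0 n0 a1 n1 m hn0 hn1 hm inv.hz0 inv.hJ2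
        hJ2' := fun ha1 => arith2 a0 n0 a1 n1 m hn0 hn1 ha1 hJ1.2 inv.hJ2'
        hH0 := by
          intro hA μ' hμ'
          obtain ⟨μ, μI, hμ, hμI, h2, h3, h4, h5⟩ := han hA
          rwa [← (hμ 0).unique hμ']
        hH1 := by
          intro hA1 μ' hμ'
          have h2 := inv.hH1 hA1 (m + μ') (OrdP.shift3 hres0 hμ')
          intro h3
          apply h2
          push_cast at h3 ⊢
          linear_combination h3 - hA1 }
    have invc : ∀ z, z ≠ 0 → Inv3 h s0 (hc z) (a0 + a1 + m) (n0 + n1) 0 1 := fun z hz0 =>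
      { geom := ⟨G.child hn0 hn1 m 0 z hz0 (hc z) (fun _ => 1) (hhc z) (hg1 z)⟩
        hn0 := by omega
        hn1 := le_rfl
        hz0 := haz
        hz1 := fun _ => rfl
        hJ1 := fun m' h1 => ⟨arith3 a0 n0 a1 n1 m _ hn0 hn1 (hmc z m' h1) hJ1.1
          hJ1.2, by simp⟩
        hJ2 := fun h => by rw [mul_zero, mul_one]; exact h
        hJ2' := fun h => absurd h (lt_irrefl 0)
        hH0 := by
          intro hA μ' hμ'
          obtain ⟨μ, μI, hμ, hμI, h2, h3, h4, h5⟩ := han hA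
          have h6 := h4 z hz0
          rw [(hμ z).unique hμ'] at h6
          rw [zero_add]
          push_cast
          exact h6
        hH1 := by
          intro hA1
          simp at hA1 }
    have invI : Inv3 h s0 hI a0 n0 (a0 + a1 + m) (n0 + n1) :=
      { geom := ⟨G.childI hn0 hn1 m 0 hI (fun _ => 1) hhI hgI⟩
        hn0 := hn0
        hn1 := by omega
        hz0 := inv.hz0
        hz1 := haz
        hJ1 := fun m' h1 => ⟨(Nat.mul_le_mul_left _ (hmI m' h1)).trans hJ1.1,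
          arith3 a0 n0 a1 n1 m _ hn0 hn1 (hmI m' h1) hJ1.1 hJ1.2⟩
        hJ2 := fun ha0 => by
          have := arith2 a1 n1 a0 n0 m hn1 hn0 ha0 hJ1.1 inv.hJ2
          rwa [add_comm a1 a0, add_comm n1 n0] at this
        hJ2' := fun _ => by
          have := arith1 a1 n1 a0 n0 m hn1 hn0 hm inv.hz1 inv.hJ2'
          rwa [add_comm a1 a0, add_comm n1 n0] at this
        hH0 := by
          intro hA0 μ' hμ'
          have h2 := inv.hH0 hA0 (m + μ') (OrdP.shift3 hresI hμ')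
          intro h3
          apply h2
          push_cast at h3 ⊢
          linear_combination h3 - hA0
        hH1 := by
          intro hA μ' hμ'
          obtain ⟨μ, μI, hμ, hμI, h2, h3, h4, h5⟩ := han hA
          rwa [← hμI.unique hμ'] }
    obtain ⟨c00, m00, c01, m01, h00, h01, h02⟩ := ih0 inv0
    obtain ⟨cI0, mI0, cI1, mI1, hI0, hI1, hI2⟩ := ihI invI
    set facE := Φ (a0 + a1 + m) (n0 + n1) with hfacE
    have hcc2 : ∀ z ∈ S.erase 0, ∃ κ' : R, κ' ∈ D ∧
        (((n0 + n1 : ℕ) : ℂ) + ((a0 + a1 + m : ℕ) : ℂ) * s0 = 0 → ∀ μ,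
          OrdP (res0 (hc z)) μ → κ' = Φ μ 1 * e (Nat.gcd (a0 + a1 + m) μ)) ∧
          Zc z - κ' * facE ∈ D := by
      intro z hzS
      rw [Finset.mem_erase] at hzS
      obtain ⟨κ', mκ, κ'', mκ', h2, h3, h4⟩ := ihc z hzS.2 hzS.1 (invc z hzS.1)
      refine ⟨κ', mκ, ?_, ?_⟩
      · intro hA μ hμ
        have h5 := h2 hA μ hμ
        rw [zero_add] at h5
        exact h5
      · have h5 := D.add_mem h4 mκ'
        rw [hD.one, mul_one, sub_add_cancel] at h5
        exact h5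
    choose! κ' hκ0 hκ1 hκ2 using hcc2
    set P : ℂ[X] := X ^ a1 * res0 (hc 0) with hP
    have hPne : P ≠ 0 := mul_ne_zero (pow_ne_zero _ X_ne_zero) hPh
    have hPS : ∀ z ∉ S, P.eval z ≠ 0 := by
      intro z hz
      rw [hP, eval_mul, eval_pow, eval_X, hcc]
      refine mul_ne_zero (pow_ne_zero _ ?_) (hS z hz)
      rintro rfl
      exact hz h0S
    set δ : R := cW (a0 + a1 + m) P - ∑ z ∈ S, e (Nat.gcd (a0 + a1 + m) (P.rootMultiplicity z))
      - e (Nat.gcd (a0 + a1 + m) P.natDegree) with hδ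
    have hδD : δ ∈ D := D.sub_mem (D.sub_mem (hcm _ _) (D.sum_mem fun z _ => he _)) (he _)
    set β : R := cI1 + c00 + ∑ z ∈ S.erase 0, κ' z + δ with hβ
    have hβE : β * facE ∈ D := by
      by_cases hA : ((n0 + n1 : ℕ) : ℂ) + ((a0 + a1 + m : ℕ) : ℂ) * s0 = 0
      · obtain ⟨μ, μI, hμ, hμI, h2, h3, h4, u1, k1, u2, k2, h5, h6, h7, h8, h9, h10, h11', h12,
          h13⟩ := han hA
        set N := a0 + a1 + m with hN
        have hNpos : 1 ≤ N := by omega
        have hgu : Nat.gcd N u1 = Nat.gcd N u2 := gcd_compl (by rw [h5])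
        -- the identity for the multiplicities, without normalization
        have h14 : ∀ (R : Type) [CommRing R] (Φ' : ℕ → ℕ → R), Φ' (a0 + μI) n0 +
            Φ' (a1 + μ 0) n1 + ∑ z ∈ S.erase 0, Φ' (μ z) 1
              = Φ' u1 k1 + Φ' u2 k2 + ((S.card : R) - 1) * Φ' 0 1 := by
          intro R' _ Φ'
          have h15 := h13 R' (fun u k => 1 + Φ' u k - Φ' 0 1) 0 (by ring)
          simp only [Finset.sum_sub_distrib, Finset.sum_add_distrib, Finset.sum_const, nsmul_eq_mul,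
            mul_one] at h15
          rw [Finset.card_erase_of_mem h0S, Nat.cast_sub (Finset.card_pos.2 ⟨0, h0S⟩),
            Nat.cast_one] at h15
          linear_combination h15
        have hm1 : ∀ z, P.rootMultiplicity z = (if z = 0 then a1 else 0) + μ z := by
          intro z
          have h15 := hμ z
          rw [hhz] at h15
          obtain ⟨-, h16⟩ := ord_eq h15.1 h15.2
          rw [hP, rootMultiplicity_mul (by rw [← hP]; exact hPne), rm_Xpow, ← h16]
        have hm2 : Nat.gcd N P.natDegree = Nat.gcd N (a0 + μI) := by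
          obtain ⟨d1, d2, d3⟩ := hdeg
          have hle : μI ≤ m := (le_natDegree_of_ne_zero hμI.2).trans d2
          have hj := hμI.2
          rw [d3 μI hle] at hj
          have hnd : (res0 (hc 0)).natDegree = m - μI := by
            refine le_antisymm ?_ (le_natDegree_of_ne_zero hj)
            by_contra h2
            push Not at h2
            have h3 := hμI.1 (m - (res0 (hc 0)).natDegree) (by omega)
            rw [d3 _ (by omega)] at h3
            have h4 : m - (m - (res0 (hc 0)).natDegree) = (res0 (hc 0)).natDegree := by omega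
            rw [h4] at h3
            exact hPh (leadingCoeff_eq_zero.1 h3)
          apply gcd_compl
          rw [hP, natDegree_mul (pow_ne_zero _ X_ne_zero) hPh, natDegree_X_pow, hnd]
          have h15 : a1 + (m - μI) + (a0 + μI) = N := by omega
          rw [h15]
        have hsumE : ∀ (R : Type) [CommRing R] (e' : ℕ → R),
            ∑ z ∈ S, e' (Nat.gcd N (P.rootMultiplicity z)) + e' (Nat.gcd N P.natDegree)
              = 2 * e' (Nat.gcd N u1) + ((S.card : R) - 1) * e' N := by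
          intro R' _ e'
          have h15 := h14 R' fun u _ => e' (Nat.gcd N u)
          simp only [Nat.gcd_zero_right] at h15
          rw [← hgu] at h15
          rw [hm2, ← Finset.add_sum_erase S _ h0S, hm1 0, if_pos rfl,
            Finset.sum_congr rfl (g := fun z => e' (Nat.gcd N (μ z))) fun z hz => by
              rw [hm1 z, if_neg (Finset.ne_of_mem_erase hz), zero_add]]
          linear_combination h15
        obtain ⟨hsp, hgm⟩ := spec_gmul hNpos (Nat.gcd_dvd_left N u1) hPne S hPS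
          (fun e' => by rw [hsumE ℤ e'])
        have hcw : cW N P = (l + 1) * e (Nat.gcd N u1) := by
          rw [hc2 N P hNpos hPne hsp, hgm]
        have e2 := hI1 hA μI hμI
        have e3 := h00 hA (μ 0) (hμ 0)
        have e4 : ∀ z ∈ S.erase 0, κ' z = Φ (μ z) 1 * e (Nat.gcd N (μ z)) :=
          fun z hzS => hκ1 z hzS hA (μ z) (hμ z)
        have e5 := h14 R fun u k => e (Nat.gcd N u) * Φ u k
        simp only [Nat.gcd_zero_right, hD.one, mul_one] at e5
        rw [← hgu] at e5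
        have e6 : β = (Φ u1 k1 + Φ u2 k2 + (l - 1)) * e (Nat.gcd N u1) := by
          rw [hβ, hδ, Finset.sum_congr rfl e4, e2, e3, hcw]
          have e7 : ∑ z ∈ S.erase 0, Φ (μ z) 1 * e (Nat.gcd N (μ z))
              = ∑ z ∈ S.erase 0, e (Nat.gcd N (μ z)) * Φ (μ z) 1 :=
            Finset.sum_congr rfl fun z _ => mul_comm _ _
          rw [e7]
          have e8 := hsumE R e
          linear_combination e5 - e8
        have e8 : β * facE = (Φ u1 k1 + Φ u2 k2 + (l - 1)) * Φ (u1 + u2) (k1 + k2)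
            * e (Nat.gcd N u1) := by
          rw [e6, hfacE, h5, h6]
          ring
        rw [e8]
        exact D.mul_mem (hD.beta u1 k1 u2 k2 (by omega) h7 h8 h9 h10 h11' h12) (he _)
      · exact D.mul_mem (D.add_mem (D.add_mem (D.add_mem mI1 m00) (Subring.sum_mem _ hκ0)) hδD)
          (hD.reg _ _ (by omega) hA)
    have hsum : ∑ z ∈ S.erase 0, (Zc z - κ' z * facE) ∈ D :=
      Subring.sum_mem _ fun z hzS => hκ2 z hzS
    rw [Finset.sum_sub_distrib, ← Finset.sum_mul] at hsum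
    have hfin := D.add_mem (D.add_mem (D.add_mem h02 hI2) hsum) hβE
    have heq : ZI + ∑ z ∈ S, Zc z + δ * facE
          - cI0 * Φ a0 n0 - c01 * Φ a1 n1
        = Zc 0 - c00 * facE - c01 * Φ a1 n1
          + (ZI - cI0 * Φ a0 n0 - cI1 * facE)
          + (∑ z ∈ S.erase 0, Zc z - (∑ z ∈ S.erase 0, κ' z) * facE)
          + β * facE := by
      rw [← Finset.add_sum_erase S Zc h0S, hβ]
      ring
    rw [← heq] at hfin
    have hcor0 : ∃ c0 ∈ D, ((n0 : ℂ) + a0 * s0 = 0 → ∀ μ, OrdP (res0 h') μ →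
          c0 = Φ (a1 + μ) n1 * e (Nat.gcd a0 (a1 + μ))) ∧ (cI0 - c0) * Φ a0 n0 ∈ D := by
      by_cases hcase : (n0 : ℂ) + a0 * s0 = 0 ∧ ∃ μ, OrdP (res0 h') μ
      · obtain ⟨hA0, μ, hμ⟩ := hcase
        have hnz := inv.hH0 hA0 μ hμ
        obtain ⟨ν, rfl, hν⟩ := OrdP.unshift3 hresI hμ
        have h2 := hI0 hA0 ν hν
        have ha0 : 1 ≤ a0 := Nat.one_le_iff_ne_zero.2 (a_ne_zero inv.hz0 hA0)
        have hp := hD.pass a0 n0 (a1 + (m + ν)) n1 ha0 (by omega) hn0 hn1 hA0 hnz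
        refine ⟨Φ (a1 + (m + ν)) n1 * e (Nat.gcd a0 (a1 + (m + ν))),
          D.mul_mem (hD.reg _ _ hn1 ?_) (he _), ?_, ?_⟩
        · rw [mul_comm]
          exact hnz
        · intro _ μ' hμ'
          rw [← hμ.unique hμ']
        · have h3 := D.mul_mem hp (he (Nat.gcd a0 (a1 + (m + ν))))
          rw [h2, show a0 + a1 + m + ν = a1 + (m + ν) + a0 by omega,
            gcd_add_of_dvd _ (dvd_refl a0), show a1 + (m + ν) + a0 = a0 + (a1 + (m + ν)) by omega]
          convert h3 using 1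
          ring
      · refine ⟨cI0, mI0, ?_, ?_⟩
        · intro h1 μ hμ
          exact absurd ⟨h1, μ, hμ⟩ hcase
        · rw [sub_self, zero_mul]
          exact D.zero_mem
    have hcor1 : ∃ c1 ∈ D, ((n1 : ℂ) + a1 * s0 = 0 → ∀ μ, OrdP (res1 h') μ →
          c1 = Φ (a0 + μ) n0 * e (Nat.gcd a1 (a0 + μ))) ∧ (c01 - c1) * Φ a1 n1 ∈ D := by
      by_cases hcase : (n1 : ℂ) + a1 * s0 = 0 ∧ ∃ μ, OrdP (res1 h') μ
      · obtain ⟨hA1, μ, hμ⟩ := hcase
        have hnz := inv.hH1 hA1 μ hμ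
        obtain ⟨ν, rfl, hν⟩ := OrdP.unshift3 hres0 hμ
        have h2 := h01 hA1 ν hν
        have ha1 : 1 ≤ a1 := Nat.one_le_iff_ne_zero.2 (a_ne_zero inv.hz1 hA1)
        have hp := hD.pass a1 n1 (a0 + (m + ν)) n0 ha1 (by omega) hn1 hn0 hA1 hnz
        refine ⟨Φ (a0 + (m + ν)) n0 * e (Nat.gcd a1 (a0 + (m + ν))),
          D.mul_mem (hD.reg _ _ hn0 ?_) (he _), ?_, ?_⟩
        · rw [mul_comm]
          exact hnz
        · intro _ μ' hμ'
          rw [← hμ.unique hμ']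
        · have h3 := D.mul_mem hp (he (Nat.gcd a1 (a0 + (m + ν))))
          rw [h2, show a0 + a1 + m + ν = a0 + (m + ν) + a1 by omega,
            gcd_add_of_dvd _ (dvd_refl a1), show a0 + (m + ν) + a1 = a1 + (a0 + (m + ν)) by omega,
            add_comm n0 n1]
          convert h3 using 1
          ring
      · refine ⟨c01, m01, ?_, ?_⟩
        · intro h1 μ hμ
          exact absurd ⟨h1, μ, hμ⟩ hcase
        · rw [sub_self, zero_mul]
          exact D.zero_mem
    obtain ⟨c0, mc0, hc0, hc0'⟩ := hcor0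
    obtain ⟨c1, mc1, hc1', hc1''⟩ := hcor1
    refine ⟨c0, mc0, c1, mc1, hc0, hc1', ?_⟩
    have := D.add_mem (D.add_mem hfin hc0') hc1''
    convert this using 1
    ring

end Node

/-- (Z6) -/
theorem t_Z6 : S_Z6 := by
  intro F hF s0 R _ D Φ l e cW hE hD h11 he hcm hc2 Z hZ
  obtain ⟨c0, m0, c1, m1, _, _, h1⟩ := all6 (FF_ne hF) hE hD h11 he hcm hc2 hZ
    { geom := ⟨gInit F⟩
      hn0 := le_rfl
      hn1 := le_rfl
      hz0 := fun _ => rfl
      hz1 := fun _ => rfl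
      hJ1 := fun m _ => by simp
      hJ2 := fun h => absurd h (lt_irrefl 0)
      hJ2' := fun h => absurd h (lt_irrefl 0)
      hH0 := fun h => by simp at h
      hH1 := fun h => by simp at h }
  rw [hD.one, mul_one, mul_one] at h1
  have h2 := D.add_mem (D.add_mem h1 m1) m0
  rwa [sub_add_cancel, sub_add_cancel] at h2

end Pool.Agent.J4H19.YZ
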